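import Pool.Agent.H85.RT.Defs

/-!
# Eightfold mixing with a logarithmic rate: definitions
-/

namespace Pool.Agent.H85.RTM

open MeasureTheory

universe v

/-- `|∫ d(S^{n₁} ω) ⋯ d(S^{n₈} ω) dm| ≤ C / (log g)^16` for all `n₁, …, n₈` with pairwise distances
at least `g ≥ 2` -/
def Mix8 {Ω : Type v} [MeasurableSpace Ω] (S : Ω ≃ᵐ Ω) (m : Measure Ω) (d : Ω → ℝ) : Prop :=
  ∃ C : ℝ, ∀ g : ℕ, 2 ≤ g → ∀ n : Fin 8 → ℕ,
    (∀ i j, i ≠ j → n i + g ≤ n j ∨ n j + g ≤ n i) →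
      |∫ ω, ∏ i, d (S^[n i] ω) ∂m| ≤ C / Real.log g ^ 16

/-- `h` is in the `L¹` closure of the complex linear span of the real bounded functions with the
property `Mix8` -/
def MixClosure {Ω : Type v} [MeasurableSpace Ω] (S : Ω ≃ᵐ Ω) (m : Measure Ω) (h : Ω → ℂ) : Prop :=
  ∀ ε : ℝ, 0 < ε → ∃ (k : ℕ) (d : Fin k → Ω → ℝ) (c : Fin k → ℂ),
    (∀ i, Measurable (d i) ∧ (∃ K, ∀ ω, |d i ω| ≤ K) ∧ Mix8 S m (d i)) ∧
      ∫ ω, ‖h ω - ∑ i, c i * (d i ω : ℂ)‖ ∂m ≤ ε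

/-- systems for which every bounded function with integral zero is in this closure -/
def IsMix8 {Ω : Type v} [MeasurableSpace Ω] (S : Ω ≃ᵐ Ω) (m : Measure Ω) : Prop :=
  ∀ h : Ω → ℂ, MemLp h ⊤ m → ∫ ω, h ω ∂m = 0 → MixClosure S m h

end Pool.Agent.H85.RTM
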