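import Pool.Agent.H85.RTM.Rate
import Pool.Agent.H85.RTM.Defs
import Pool.Agent.H85.RT.Main

/-!
# Return times for double recurrence: weights in the closure of the mixing functions
-/

namespace Pool.Agent.H85.RTM

open MeasureTheory Finset Filter Topology
open Pool.Agent.H85.RT

universe u v

variable {Ω : Type v} [MeasurableSpace Ω] {m : Measure Ω} [IsProbabilityMeasure m]

theorem NullR_add {w v : ℕ → ℝ} (hw : NullR.{u} w) (hv : NullR.{u} v) :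
    NullR.{u} (fun n => w n + v n) := by
  intro X _ μ _ T hT f g hf hg hfb hgb
  filter_upwards [hw X μ T hT f g hf hg hfb hgb, hv X μ T hT f g hf hg hfb hgb] with x h1 h2
  have h3 := h1.add h2
  rw [add_zero] at h3
  refine h3.congr fun N => ?_
  rw [← add_div, ← Finset.sum_add_distrib]
  congr 1
  refine Finset.sum_congr rfl fun n _ => ?_
  ring

theorem NullR_zero : NullR.{u} (fun _ => 0) := by
  intro X _ μ _ T hT f g hf hg hfb hgb
  refine Eventually.of_forall fun x => ?_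
  simp

theorem NullR_sum {k : ℕ} {w : Fin k → ℕ → ℝ} (hw : ∀ i, NullR.{u} (w i)) :
    NullR.{u} (fun n => ∑ i, w i n) := by
  induction k with
  | zero => simpa using NullR_zero.{u}
  | succ k ih =>
    simp_rw [Fin.sum_univ_succ]
    exact NullR_add (hw 0) (ih fun i => hw i.succ)

/-- approximation in `L¹` along the orbit -/
theorem null_approx' {S : Ω → Ω} (hS : MeasurePreserving S m m) {h : Ω → ℝ} (hm : Measurable h)
    {C : ℝ} (hb : ∀ ω, |h ω| ≤ C)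
    (happ : ∀ ε : ℝ, 0 < ε → ∃ d : Ω → ℝ, Measurable d ∧ (∃ K, ∀ ω, |d ω| ≤ K) ∧
      ∫ ω, |h ω - d ω| ∂m ≤ ε ∧ ∀ᵐ ω ∂m, NullR.{u} (fun n => d (S^[n] ω))) :
    ∀ᵐ ω ∂m, NullR.{u} (fun n => h (S^[n] ω)) := by
  choose! D hD1 hD2 hD3 hD4 using happ
  set d : ℕ → Ω → ℝ := fun i => D ((1 / 4 : ℝ) ^ i) with hd
  have hpos : ∀ i : ℕ, (0 : ℝ) < (1 / 4 : ℝ) ^ i := fun i => by positivity
  have hpos2 : ∀ i : ℕ, (0 : ℝ) < (1 / 2 : ℝ) ^ i := fun i => by positivity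
  set s : ℕ → Set Ω := fun i => {ω | ∃ N : ℕ, (1 / 2 : ℝ) ^ i * N <
    ∑ n ∈ range N, (fun ω => |h ω - d i ω|) (S^[n] ω)} with hs
  have hms : ∀ i, m (s i) ≤ ENNReal.ofReal ((1 / 2 : ℝ) ^ i) := by
    intro i
    obtain ⟨K, hK⟩ := hD2 _ (hpos i)
    refine (maxi hS (ψ := fun ω => |h ω - d i ω|) (hm.sub (hD1 _ (hpos i))).abs
      (fun ω => abs_nonneg _) (K := C + K) (fun ω => ?_) (hpos2 i)).trans ?_
    · refine (abs_sub _ _).trans ?_
      exact add_le_add (hb ω) (hK ω)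
    · refine ENNReal.ofReal_le_ofReal ?_
      rw [div_le_iff₀ (hpos2 i)]
      refine (hD3 _ (hpos i)).trans (le_of_eq ?_)
      rw [← mul_pow]
      norm_num
  have hsum : ∑' i, m (s i) ≠ ⊤ := by
    refine ne_top_of_le_ne_top ?_ (ENNReal.tsum_le_tsum hms)
    exact (summable_geometric_of_lt_one (by norm_num) (by norm_num)).tsum_ofReal_ne_top
  have hall : ∀ᵐ ω ∂m, ∀ i, NullR.{u} (fun n => d i (S^[n] ω)) :=
    ae_all_iff.mpr fun i => hD4 _ (hpos i)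
  filter_upwards [ae_eventually_notMem hsum, hall] with ω h1 h2
  intro X _ μ _ T hT f g hf hg hfb hgb
  have h3 : ∀ᵐ x ∂μ, ∀ i, Tendsto (fun N : ℕ => (∑ n ∈ range N, d i (S^[n] ω) *
      (f (T^[n] x) * g (T.symm^[n] x))) / N) atTop (𝓝 0) :=
    ae_all_iff.mpr fun i => h2 i X μ T hT f g hf hg hfb hgb
  filter_upwards [h3] with x hx
  rw [Metric.tendsto_atTop]
  intro ε hε
  obtain ⟨i0, hi0⟩ := eventually_atTop.mp h1
  obtain ⟨i1, hi1⟩ := exists_pow_lt_of_lt_one (half_pos hε) (by norm_num : (1 / 2 : ℝ) < 1)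
  set i := max i0 i1 with hi
  have hpi : (1 / 2 : ℝ) ^ i < ε / 2 :=
    lt_of_le_of_lt (pow_le_pow_of_le_one (by norm_num) (by norm_num) (le_max_right _ _)) hi1
  have hns := hi0 i (le_max_left _ _)
  have hns' : ∀ N : ℕ, ∑ n ∈ range N, |h (S^[n] ω) - d i (S^[n] ω)| ≤ (1 / 2 : ℝ) ^ i * N := by
    intro N
    by_contra hc
    exact hns ⟨N, not_le.mp hc⟩
  obtain ⟨N0, hN0⟩ := (Metric.tendsto_atTop.mp (hx i)) (ε / 2) (half_pos hε)
  refine ⟨max N0 1, fun N hN => ?_⟩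
  have hN1 : 0 < N := lt_of_lt_of_le one_pos ((le_max_right _ _).trans hN)
  have hN' : (0 : ℝ) < N := by exact_mod_cast hN1
  have h4 := hN0 N ((le_max_left _ _).trans hN)
  rw [dist_zero_right, Real.norm_eq_abs] at h4 ⊢
  have h5 : |(∑ n ∈ range N, h (S^[n] ω) * (f (T^[n] x) * g (T.symm^[n] x))) / N -
      (∑ n ∈ range N, d i (S^[n] ω) * (f (T^[n] x) * g (T.symm^[n] x))) / N| ≤
      (1 / 2 : ℝ) ^ i := by
    rw [← sub_div, ← Finset.sum_sub_distrib, abs_div, Nat.abs_cast, div_le_iff₀ hN']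
    refine (Finset.abs_sum_le_sum_abs _ _).trans (le_trans ?_ (hns' N))
    refine Finset.sum_le_sum fun n _ => ?_
    rw [← sub_mul, abs_mul]
    refine mul_le_of_le_one_right (abs_nonneg _) ?_
    rw [abs_mul]
    exact mul_le_one₀ (hfb _) (abs_nonneg _) (hgb _)
  have h6 := abs_le.mp h5
  have h7 := abs_lt.mp h4
  rw [abs_lt]
  constructor
  · linarith [h6.1, h7.1]
  · linarith [h6.2, h7.2]

omit [IsProbabilityMeasure m] in
theorem mixB_smul {S : Ω ≃ᵐ Ω} {d : Ω → ℝ} {C b : ℝ} (hb0 : 0 ≤ b) (hb1 : b ≤ 1)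
    (hC : ∀ g : ℕ, 2 ≤ g → ∀ n : Fin 8 → ℕ,
    (∀ i j, i ≠ j → n i + g ≤ n j ∨ n j + g ≤ n i) →
      |∫ ω, ∏ i, d (S^[n i] ω) ∂m| ≤ C / Real.log g ^ 16) (f : Ω → ℝ)
    (hf : ∀ ω, f ω = b * d ω) :
    MixB S m f (fun g => max C 0 / Real.log g ^ 16) := by
  intro g hg n hn
  have h2 := hC g hg n hn
  have e : ∀ ω, ∏ i, f (S^[n i] ω) = b ^ 8 * ∏ i, d (S^[n i] ω) := by
    intro ω
    have e1 : ∏ i, f (S^[n i] ω) = ∏ i, (b * d (S^[n i] ω)) :=
      Finset.prod_congr rfl fun i _ => hf _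
    rw [e1, Finset.prod_mul_distrib, Finset.prod_const, Finset.card_univ, Fintype.card_fin]
  have e2 : ∫ ω, ∏ i, f (S^[n i] ω) ∂m = b ^ 8 * ∫ ω, ∏ i, d (S^[n i] ω) ∂m := by
    rw [← integral_const_mul]
    exact integral_congr_ae (Eventually.of_forall e)
  rw [e2, abs_mul]
  have h3 : |b ^ 8| ≤ 1 := by
    rw [abs_of_nonneg (by positivity)]
    exact pow_le_one₀ hb0 hb1
  have h4 : C / Real.log g ^ 16 ≤ max C 0 / Real.log g ^ 16 :=
    div_le_div_of_nonneg_right (le_max_left _ _) (by positivity)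
  calc |b ^ 8| * |∫ ω, ∏ i, d (S^[n i] ω) ∂m| ≤ 1 * |∫ ω, ∏ i, d (S^[n i] ω) ∂m| :=
        mul_le_mul_of_nonneg_right h3 (abs_nonneg _)
    _ ≤ _ := by rw [one_mul]; exact h2.trans h4

/-- one mixing function -/
theorem null_mix8 {S : Ω ≃ᵐ Ω} {d : Ω → ℝ} (hd : Measurable d) (hb : ∃ K, ∀ ω, |d ω| ≤ K)
    (hC : Mix8 S m d) : ∀ᵐ ω ∂m, NullR.{u} (fun n => d (S^[n] ω)) := by
  obtain ⟨K, hK⟩ := hb
  obtain ⟨C, hC⟩ := hC
  set L : ℝ := max K 1 with hL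
  have hL1 : 1 ≤ L := le_max_right _ _
  have hL0 : 0 < L := by linarith
  have hKL : ∀ ω, |d ω| ≤ L := fun ω => (hK ω).trans (le_max_left _ _)
  obtain ⟨f, hf⟩ : ∃ f : Ω → ℝ, f = fun ω => L⁻¹ * d ω := ⟨_, rfl⟩
  have hf' : ∀ ω, f ω = L⁻¹ * d ω := fun ω => by rw [hf]
  have hfm : Measurable f := by rw [hf]; exact hd.const_mul _
  have hfb : ∀ ω, |f ω| ≤ 1 := by
    intro ω
    rw [hf', abs_mul, abs_of_pos (inv_pos.mpr hL0), inv_mul_le_iff₀ hL0, mul_one]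
    exact hKL ω
  have hmix := mixB_smul (m := m) (S := S) (inv_pos.mpr hL0).le (inv_le_one_of_one_le₀ hL1) hC f hf'
  have h1 : ∀ᵐ ω ∂m, NullR.{u} (fun n => f (S^[n] ω)) :=
    null_of_mix S.measurable hfm hfb (le_max_right _ _) hmix
  filter_upwards [h1] with ω hω
  have h2 := hω.smul L
  have e : (fun n => L * f (S^[n] ω)) = fun n => d (S^[n] ω) := by
    funext n
    rw [hf', mul_inv_cancel_left₀ hL0.ne']
  rw [e] at h2
  exact h2

/-- real functions in the closure -/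
theorem null_real {S : Ω ≃ᵐ Ω} (hS : MeasurePreserving S m m) {h : Ω → ℝ} (hm : Measurable h)
    {C : ℝ} (hb : ∀ ω, |h ω| ≤ C)
    (happ : ∀ ε : ℝ, 0 < ε → ∃ (k : ℕ) (d : Fin k → Ω → ℝ) (c : Fin k → ℝ),
      (∀ i, Measurable (d i) ∧ (∃ K, ∀ ω, |d i ω| ≤ K) ∧ Mix8 S m (d i)) ∧
      ∫ ω, |h ω - ∑ i, c i * d i ω| ∂m ≤ ε) :
    ∀ᵐ ω ∂m, NullR.{u} (fun n => h (S^[n] ω)) := by
  refine null_approx' hS hm hb fun ε hε => ?_
  obtain ⟨k, d, c, hd, hi⟩ := happ ε hε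
  refine ⟨fun ω => ∑ i, c i * d i ω, Finset.measurable_sum _ fun i _ => (hd i).1.const_mul _, ?_,
    hi, ?_⟩
  · choose K hK using fun i => (hd i).2.1
    refine ⟨∑ i, |c i| * K i, fun ω => ?_⟩
    refine (Finset.abs_sum_le_sum_abs _ _).trans (Finset.sum_le_sum fun i _ => ?_)
    rw [abs_mul]
    exact mul_le_mul_of_nonneg_left (hK i ω) (abs_nonneg _)
  · have h1 : ∀ᵐ ω ∂m, ∀ i, NullR.{u} (fun n => d i (S^[n] ω)) :=
      ae_all_iff.mpr fun i => null_mix8 (hd i).1 (hd i).2.1 (hd i).2.2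
    filter_upwards [h1] with ω hω
    exact NullR_sum fun i => (hω i).smul (c i)

/-- complex functions in the closure -/
theorem null_complex {S : Ω ≃ᵐ Ω} (hS : MeasurePreserving S m m) {h : Ω → ℂ} (hh : MemLp h ⊤ m)
    (hcl : MixClosure S m h) : ∀ᵐ ω ∂m, NullWeight.{u} (fun n => h (S^[n] ω)) := by
  obtain ⟨c, h1, h2, hc, hm1, hm2, hb1, hb2, he⟩ := rep hh
  have hi : Integrable h m := hh.integrable le_top
  have e1 : (fun ω => (h ω).re) =ᵐ[m] fun ω => c * h1 ω := by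
    filter_upwards [he] with ω hω
    rw [hω]
    simp
  have e2 : (fun ω => (h ω).im) =ᵐ[m] fun ω => c * h2 ω := by
    filter_upwards [he] with ω hω
    rw [hω]
    simp
  have hint : ∀ (k : ℕ) (d : Fin k → Ω → ℝ) (b : Fin k → ℂ),
      (∀ i, Measurable (d i) ∧ (∃ K, ∀ ω, |d i ω| ≤ K) ∧ Mix8 S m (d i)) →
      Integrable (fun ω => h ω - ∑ i, b i * (d i ω : ℂ)) m := by
    intro k d b hd
    refine hi.sub (integrable_finsetSum _ fun i _ => ?_)
    obtain ⟨K, hK⟩ := (hd i).2.1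
    have : Integrable (d i) m := int_of_bdd (hd i).1 (C := K) hK
    exact (this.ofReal).const_mul _
  have key : ∀ (L : ℂ →L[ℝ] ℝ) (hL : ∀ z, |L z| ≤ ‖z‖) (h' : Ω → ℝ) (hm' : Measurable h')
      (hb' : ∀ ω, |h' ω| ≤ 1 / 2) (he' : (fun ω => L (h ω)) =ᵐ[m] fun ω => c * h' ω),
      ∀ᵐ ω ∂m, NullR.{u} (fun n => h' (S^[n] ω)) := by
    intro L hL h' hm' hb' he'
    refine null_real hS hm' hb' fun ε hε => ?_
    obtain ⟨k, d, b, hd, hdi⟩ := hcl (c * ε) (mul_pos hc hε)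
    refine ⟨k, d, fun i => c⁻¹ * L (b i), hd, ?_⟩
    have h3 : (fun ω => |h' ω - ∑ i, c⁻¹ * L (b i) * d i ω|) ≤ᵐ[m]
        fun ω => c⁻¹ * ‖h ω - ∑ i, b i * (d i ω : ℂ)‖ := by
      filter_upwards [he'] with ω hω
      have h4 : h' ω - ∑ i, c⁻¹ * L (b i) * d i ω =
          c⁻¹ * L (h ω - ∑ i, b i * (d i ω : ℂ)) := by
        rw [map_sub, map_sum, hω, mul_sub, inv_mul_cancel_left₀ hc.ne', Finset.mul_sum]
        congr 1
        refine Finset.sum_congr rfl fun i _ => ?_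
        have h5 : b i * (d i ω : ℂ) = d i ω • b i := by
          rw [Complex.real_smul, mul_comm]
        rw [h5, map_smul, smul_eq_mul]
        ring
      rw [h4, abs_mul, abs_of_pos (inv_pos.mpr hc)]
      exact mul_le_mul_of_nonneg_left (hL _) (inv_pos.mpr hc).le
    have h6 := integral_mono_ae (μ := m) (f := fun ω => |h' ω - ∑ i, c⁻¹ * L (b i) * d i ω|)
      (g := fun ω => c⁻¹ * ‖h ω - ∑ i, b i * (d i ω : ℂ)‖) ?_ ((hint k d b hd).norm.const_mul _) h3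
    · refine h6.trans ?_
      rw [integral_const_mul, inv_mul_le_iff₀ hc]
      exact hdi
    · have i1 : Integrable h' m := int_of_bdd hm' (C := 1 / 2) hb'
      refine (i1.sub (integrable_finsetSum _ fun i _ => ?_)).abs
      obtain ⟨K, hK⟩ := (hd i).2.1
      exact (int_of_bdd (hd i).1 (C := K) hK).const_mul _
  have r1 := key Complex.reCLM (fun z => Complex.abs_re_le_norm z) h1 hm1 hb1 e1
  have r2 := key Complex.imCLM (fun z => Complex.abs_im_le_norm z) h2 hm2 hb2 e2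
  filter_upwards [r1, r2, ae_orbit hS e1, ae_orbit hS e2] with ω a1 a2 b1 b2
  have hn := nullWeight_of_real (a1.smul c) (a2.smul c)
  have e : (fun n => h (S^[n] ω)) =
      fun n => ((c * h1 (S^[n] ω) : ℝ) : ℂ) + Complex.I * ((c * h2 (S^[n] ω) : ℝ) : ℂ) := by
    funext n
    have x1 := b1 n
    have x2 := b2 n
    apply Complex.ext
    · simp
      rw [x1]
    · simp
      rw [x2]
  rw [e]
  exact hn

theorem main_closure {S : Ω ≃ᵐ Ω} (hS : MeasurePreserving S m m) {h : Ω → ℂ} (hh : MemLp h ⊤ m)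
    (hcl : MixClosure S m h) : ∃ G : Set Ω, MeasurableSet G ∧ m G = 1 ∧ ∀ ω ∈ G,
      NullWeight.{u} (fun n => h (S^[n] ω)) :=
  exists_set (null_complex hS hh hcl)

theorem main_system {S : Ω ≃ᵐ Ω} (hS : MeasurePreserving S m m) (hmix : IsMix8 S m) {h : Ω → ℂ}
    (hh : MemLp h ⊤ m) : ∃ G : Set Ω, MeasurableSet G ∧ m G = 1 ∧ ∀ ω ∈ G,
      NullWeight.{u} (fun n => h (S^[n] ω) - ∫ ω', h ω' ∂m) ∧
      (Good.{u} S h ω ↔ (∫ ω', h ω' ∂m = 0 ∨ GoodWeight.{u} (fun _ => 1))) := by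
  have h1 : MemLp (fun ω => h ω - ∫ ω', h ω' ∂m) ⊤ m := hh.sub (memLp_const _)
  have h2 : ∫ ω, (h ω - ∫ ω', h ω' ∂m) ∂m = 0 := by
    rw [integral_sub (hh.integrable le_top) (integrable_const _)]
    simp
  obtain ⟨G, hG1, hG2, hG3⟩ := main_closure.{u} hS h1 (hmix _ h1 h2)
  refine ⟨G, hG1, hG2, fun ω hω => ⟨hG3 ω hω, ?_⟩⟩
  exact (good_iff (v := fun _ => ∫ ω', h ω' ∂m) (hG3 ω hω)).trans good_const

end Pool.Agent.H85.RTM
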