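import Pool.Agent.H85.RTM.Seq

/-!
# Return times for double recurrence: moments for weights with eightfold mixing
-/

namespace Pool.Agent.H85.RTM

open MeasureTheory Finset Filter Topology
open Pool.Agent.H85.RT

universe u

/-- the times are pairwise at a distance of at least `g` -/
def Sep (g : ℕ) (n : Fin 8 → ℕ) : Prop := ∀ i j, i ≠ j → n i + g ≤ n j ∨ n j + g ≤ n i

variable {Ω : Type*} [MeasurableSpace Ω] {m : Measure Ω}

/-- eightfold mixing with the bound `ρ` -/
def MixB (S : Ω → Ω) (m : Measure Ω) (d : Ω → ℝ) (ρ : ℕ → ℝ) : Prop :=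
  ∀ (g : ℕ), 2 ≤ g → ∀ (n : Fin 8 → ℕ), Sep g n → |∫ ω, ∏ i, d (S^[n i] ω) ∂m| ≤ ρ g

/-- number of close pairs, shifted -/
theorem close_card' (g a c N : ℕ) :
    ((range N).filter (fun b => ¬ FarI g a (b + c))).card ≤ 2 * g := by
  have hsub : (range N).filter (fun b => ¬ FarI g a (b + c)) ⊆
      Finset.Ico (a + 1 - g - c) (a + g - c) := by
    intro b hb
    simp only [Finset.mem_filter, FarI, not_or, not_le] at hb
    rw [Finset.mem_Ico]
    omega
  refine (Finset.card_le_card hsub).trans ?_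
  rw [Nat.card_Ico]
  omega

/-- the four shifts -/
def X4 (i j k l : ℕ) : Fin 4 → ℕ := ![k + i, k + j, l + i, l + j]

/-- far quadruples -/
def Far4 (g i j k l : ℕ) : Prop :=
  FarI g i j ∧ FarI g k l ∧ FarI g (k + i) (l + j) ∧ FarI g (k + j) (l + i)

instance (g i j k l : ℕ) : Decidable (Far4 g i j k l) := by unfold Far4; infer_instance

theorem far4_X {g i j k l : ℕ} (h : Far4 g i j k l) (a b : Fin 4) (hab : a ≠ b) (n : ℕ) :
    FarI g (n + X4 i j k l a) (n + X4 i j k l b) := by
  obtain ⟨h1, h2, h3, h4⟩ := h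
  unfold FarI at *
  fin_cases a <;> fin_cases b <;> simp [X4] at hab ⊢ <;> omega

/-- the tuple of the eight times -/
def V8 (i j k l n n' : ℕ) : Fin 8 → ℕ :=
  (Fin.append (fun a => n + X4 i j k l a) (fun a => n' + X4 i j k l a) : Fin (4 + 4) → ℕ)

theorem sep_V8 {g i j k l n n' : ℕ} (h : Far4 g i j k l)
    (hn : ∀ a b : Fin 4, FarI g (n + X4 i j k l a) (n' + X4 i j k l b)) :
    Sep g (V8 i j k l n n') := by
  have key : ∀ x y : Fin (4 + 4), x ≠ y →
      FarI g ((Fin.append (fun a => n + X4 i j k l a) (fun a => n' + X4 i j k l a) :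
        Fin (4 + 4) → ℕ) x) ((Fin.append (fun a => n + X4 i j k l a)
          (fun a => n' + X4 i j k l a) : Fin (4 + 4) → ℕ) y) := by
    intro x y
    refine Fin.addCases (fun a => ?_) (fun a => ?_) x <;>
      refine Fin.addCases (fun b => ?_) (fun b => ?_) y
    · intro hab
      rw [Fin.append_left, Fin.append_left]
      exact far4_X h a b (fun e => hab (by rw [e])) n
    · intro _
      rw [Fin.append_left, Fin.append_right]
      exact hn a b
    · intro _
      rw [Fin.append_left, Fin.append_right]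
      exact (hn b a).symm
    · intro hab
      rw [Fin.append_right, Fin.append_right]
      exact far4_X h a b (fun e => hab (by rw [e])) n'
  intro x y hxy
  exact key x y hxy

/-- close pairs of times -/
def Bad (g i j k l n n' : ℕ) : Prop :=
  ∃ a b : Fin 4, ¬ FarI g (n + X4 i j k l a) (n' + X4 i j k l b)

instance (g i j k l n n' : ℕ) : Decidable (Bad g i j k l n n') := by
  unfold Bad; infer_instance

theorem bad_card (g i j k l n N : ℕ) :
    ((range N).filter (fun n' => Bad g i j k l n n')).card ≤ 32 * g := by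
  have hsub : (range N).filter (fun n' => Bad g i j k l n n') ⊆
      (univ : Finset (Fin 4 × Fin 4)).biUnion fun p =>
        (range N).filter fun n' => ¬ FarI g (n + X4 i j k l p.1) (n' + X4 i j k l p.2) := by
    intro n' hn'
    rw [mem_filter] at hn'
    obtain ⟨hr, a, b, hab⟩ := hn'
    rw [mem_biUnion]
    exact ⟨(a, b), mem_univ _, mem_filter.2 ⟨hr, hab⟩⟩
  refine (Finset.card_le_card hsub).trans (Finset.card_biUnion_le.trans ?_)
  refine (Finset.sum_le_sum fun p _ => close_card' g _ _ N).trans ?_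
  simp
  omega

variable [IsProbabilityMeasure m] {S : Ω → Ω} {d : Ω → ℝ} {ρ : ℕ → ℝ}

/-- second moment of the correlations -/
theorem ED2' (hS : Measurable S) (hd : Measurable d) (hdb : ∀ ω, |d ω| ≤ 1)
    (hC : MixB S m d ρ) {g : ℕ} (hg : 2 ≤ g) (hρ : 0 ≤ ρ g)
    (N i j k l : ℕ) (h1 : Far4 g i j k l) :
    ∫ ω, Dc (fun n => d (S^[n] ω)) N i j k l ^ 2 ∂m ≤ N ^ 2 * ρ g + 32 * g * N := by
  have hm : ∀ n, Measurable (fun ω => d (S^[n] ω)) := fun n => hd.comp (hS.iterate n)
  set q : ℕ → Ω → ℝ := fun n ω => d (S^[n + k + i] ω) * d (S^[n + k + j] ω) *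
      (d (S^[n + l + i] ω) * d (S^[n + l + j] ω)) with hq
  have hqm : ∀ n, Measurable (q n) := fun n => ((hm _).mul (hm _)).mul ((hm _).mul (hm _))
  have hqb : ∀ n ω, |q n ω| ≤ 1 := by
    intro n ω
    rw [hq]
    simp only
    rw [abs_mul, abs_mul, abs_mul]
    exact mul_le_one₀ (mul_le_one₀ (hdb _) (abs_nonneg _) (hdb _)) (by positivity)
      (mul_le_one₀ (hdb _) (abs_nonneg _) (hdb _))
  have hqq : ∀ n n', Integrable (fun ω => q n ω * q n' ω) m := fun n n' =>
    int_of_bdd ((hqm n).mul (hqm n')) (C := 1) fun ω => by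
      rw [abs_mul]; exact mul_le_one₀ (hqb _ _) (abs_nonneg _) (hqb _ _)
  have hprod : ∀ n n' ω, ∏ x, d (S^[V8 i j k l n n' x] ω) = q n ω * q n' ω := by
    intro n n' ω
    have e1 : ∏ x : Fin (4 + 4), d (S^[(Fin.append (fun a => n + X4 i j k l a)
        (fun a => n' + X4 i j k l a) : Fin (4 + 4) → ℕ) x] ω) = q n ω * q n' ω := by
      rw [Fin.prod_univ_add]
      simp only [Fin.append_left, Fin.append_right, Fin.prod_univ_four]
      simp only [X4, Matrix.cons_val_zero, Matrix.cons_val_one, Matrix.cons_val_two,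
        Matrix.cons_val_three, Matrix.head_cons, Matrix.tail_cons, hq,
        ← Nat.add_assoc]
      ring
    exact e1
  have e1 : ∀ ω, Dc (fun n => d (S^[n] ω)) N i j k l ^ 2 =
      ∑ n ∈ range N, ∑ n' ∈ range N, q n ω * q n' ω := by
    intro ω
    unfold Dc
    rw [sq_abs, sq, Finset.sum_mul_sum]
  simp_rw [e1]
  rw [integral_finsetSum _ fun n _ => integrable_finsetSum _ fun n' _ => hqq n n']
  have h3 : ∀ n ∈ range N, ∫ ω, ∑ n' ∈ range N, q n ω * q n' ω ∂m ≤ N * ρ g + 32 * g := by
    intro n _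
    rw [integral_finsetSum _ fun n' _ => hqq n n']
    have h4 : ∀ n' ∈ range N, ∫ ω, q n ω * q n' ω ∂m ≤
        ρ g + if Bad g i j k l n n' then 1 else 0 := by
      intro n' _
      by_cases hf : Bad g i j k l n n'
      · rw [if_pos hf]
        have : ∫ ω, q n ω * q n' ω ∂m ≤ 1 := (le_abs_self _).trans (int_le_one fun ω => by
          rw [abs_mul]; exact mul_le_one₀ (hqb _ _) (abs_nonneg _) (hqb _ _))
        linarith
      · rw [if_neg hf, add_zero]
        unfold Bad at hf
        push Not at hf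
        have h5 := hC g hg (V8 i j k l n n') (sep_V8 h1 hf)
        simp_rw [hprod] at h5
        exact (le_abs_self _).trans h5
    refine (Finset.sum_le_sum h4).trans ?_
    rw [Finset.sum_add_distrib, ← Finset.sum_filter, Finset.sum_const, Finset.sum_const,
      card_range, nsmul_eq_mul, nsmul_eq_mul, mul_one]
    refine add_le_add le_rfl ?_
    exact_mod_cast bad_card g i j k l n N
  refine (Finset.sum_le_sum h3).trans (le_of_eq ?_)
  simp
  ring

/-- first moment of the correlations -/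
theorem ED1' (hS : Measurable S) (hd : Measurable d) (hdb : ∀ ω, |d ω| ≤ 1)
    (hC : MixB S m d ρ) {g : ℕ} (hg : 2 ≤ g) (hρ : 0 ≤ ρ g)
    (N i j k l : ℕ) (hN : 0 < N) (h1 : Far4 g i j k l) {s : ℝ} (hs : 0 < s) :
    ∫ ω, Dc (fun n => d (S^[n] ω)) N i j k l ∂m ≤
      s * N * ρ g / 2 + 16 * s * g + N / (2 * s) := by
  have hN' : (0 : ℝ) < N := by exact_mod_cast hN
  have h3 := ED2' hS hd hdb hC hg hρ N i j k l h1
  have hDm := Dc_meas hS hd N i j k l
  have hD0 : ∀ ω, 0 ≤ Dc (fun n => d (S^[n] ω)) N i j k l := fun ω => abs_nonneg _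
  have hDN : ∀ ω, Dc (fun n => d (S^[n] ω)) N i j k l ≤ N := fun ω => Dc_le (fun n => hdb _) _ _ _ _ _
  have i1 : Integrable (fun ω => Dc (fun n => d (S^[n] ω)) N i j k l) m :=
    int_of_bdd hDm (C := N) fun ω => by rw [abs_of_nonneg (hD0 ω)]; exact hDN ω
  have i2 : Integrable (fun ω => Dc (fun n => d (S^[n] ω)) N i j k l ^ 2) m :=
    int_of_bdd (hDm.pow_const 2) (C := (N : ℝ) ^ 2) fun ω => by
      rw [abs_of_nonneg (sq_nonneg _)]
      exact pow_le_pow_left₀ (hD0 ω) (hDN ω) 2
  calc ∫ ω, Dc (fun n => d (S^[n] ω)) N i j k l ∂m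
      ≤ ∫ ω, (s / (2 * N) * Dc (fun n => d (S^[n] ω)) N i j k l ^ 2 + N / (2 * s)) ∂m := by
        refine integral_mono i1 ((i2.const_mul _).add (integrable_const _)) fun ω => ?_
        set y := Dc (fun n => d (S^[n] ω)) N i j k l with hy
        have h3 : s / (2 * N) * y ^ 2 + N / (2 * s) - y = (s * y - N) ^ 2 / (2 * N * s) := by
          field_simp
          ring
        have : 0 ≤ (s * y - N) ^ 2 / (2 * N * s) := by positivity
        simp only
        linarith
    _ = s / (2 * N) * (∫ ω, Dc (fun n => d (S^[n] ω)) N i j k l ^ 2 ∂m) + N / (2 * s) := by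
        rw [integral_add (i2.const_mul _) (integrable_const _), integral_const_mul]
        simp
    _ ≤ s / (2 * N) * (N ^ 2 * ρ g + 32 * g * N) + N / (2 * s) :=
        add_le_add (mul_le_mul_of_nonneg_left h3 (by positivity)) le_rfl
    _ = s * N * ρ g / 2 + 16 * s * g + N / (2 * s) := by field_simp; ring

theorem EQ1' (hS : Measurable S) (hd : Measurable d) (hdb : ∀ ω, |d ω| ≤ 1)
    (hC : MixB S m d ρ) {g : ℕ} (hg : 2 ≤ g) (hρ : 0 ≤ ρ g)
    (N H : ℕ) (hN : 0 < N) {s : ℝ} (hs : 0 < s) :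
    Integrable (fun ω => Qc (fun n => d (S^[n] ω)) N H) m ∧
    ∫ ω, Qc (fun n => d (S^[n] ω)) N H ∂m ≤
      H ^ 4 * (s * N * ρ g / 2 + 16 * s * g + N / (2 * s)) + 8 * g * H ^ 3 * N := by
  have hDN : ∀ i j k l ω, Dc (fun n => d (S^[n] ω)) N i j k l ≤ N :=
    fun i j k l ω => Dc_le (fun n => hdb _) _ _ _ _ _
  have hD0 : ∀ i j k l ω, 0 ≤ Dc (fun n => d (S^[n] ω)) N i j k l := fun i j k l ω => abs_nonneg _
  have i1 : ∀ i j k l, Integrable (fun ω => Dc (fun n => d (S^[n] ω)) N i j k l) m :=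
    fun i j k l => int_of_bdd (Dc_meas hS hd N i j k l) (C := N) fun ω => by
      rw [abs_of_nonneg (hD0 i j k l ω)]; exact hDN i j k l ω
  refine ⟨?_, ?_⟩
  · unfold Qc
    exact integrable_finsetSum _ fun i _ => integrable_finsetSum _ fun j _ =>
      integrable_finsetSum _ fun k _ => integrable_finsetSum _ fun l _ => i1 i j k l
  · unfold Qc
    rw [integral_finsetSum _ fun i _ => integrable_finsetSum _ fun j _ =>
      integrable_finsetSum _ fun k _ => integrable_finsetSum _ fun l _ => i1 i j k l]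
    have e1 : ∀ i ∈ range H, ∫ ω, ∑ j ∈ range H, ∑ k ∈ range H, ∑ l ∈ range H,
        Dc (fun n => d (S^[n] ω)) N i j k l ∂m = ∑ j ∈ range H, ∑ k ∈ range H, ∑ l ∈ range H,
        ∫ ω, Dc (fun n => d (S^[n] ω)) N i j k l ∂m := by
      intro i _
      rw [integral_finsetSum _ fun j _ =>
        integrable_finsetSum _ fun k _ => integrable_finsetSum _ fun l _ => i1 i j k l]
      refine Finset.sum_congr rfl fun j _ => ?_
      rw [integral_finsetSum _ fun k _ => integrable_finsetSum _ fun l _ => i1 i j k l]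
      refine Finset.sum_congr rfl fun k _ => ?_
      rw [integral_finsetSum _ fun l _ => i1 i j k l]
    rw [Finset.sum_congr rfl e1]
    set A : ℝ := s * N * ρ g / 2 + 16 * s * g + N / (2 * s) with hA
    have hA0 : 0 ≤ A := by positivity
    have hN0 : (0 : ℝ) ≤ N := Nat.cast_nonneg N
    have h2 : ∀ i j k l, ∫ ω, Dc (fun n => d (S^[n] ω)) N i j k l ∂m ≤
        A + (if ¬ FarI g i j then (N : ℝ) else 0) + ((if ¬ FarI g k l then (N : ℝ) else 0) +
        (if ¬ FarI g (k + i) (l + j) then (N : ℝ) else 0) +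
        (if ¬ FarI g (k + j) (l + i) then (N : ℝ) else 0)) := by
      intro i j k l
      have hDi : ∫ ω, Dc (fun n => d (S^[n] ω)) N i j k l ∂m ≤ N := by
        calc ∫ ω, Dc (fun n => d (S^[n] ω)) N i j k l ∂m ≤ ∫ _, (N : ℝ) ∂m :=
              integral_mono (i1 i j k l) (integrable_const _) (hDN i j k l)
          _ = N := by simp
      have p1 : 0 ≤ (if ¬ FarI g i j then (N : ℝ) else 0) := by split_ifs <;> simp
      have p2 : 0 ≤ (if ¬ FarI g k l then (N : ℝ) else 0) := by split_ifs <;> simp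
      have p3 : 0 ≤ (if ¬ FarI g (k + i) (l + j) then (N : ℝ) else 0) := by split_ifs <;> simp
      have p4 : 0 ≤ (if ¬ FarI g (k + j) (l + i) then (N : ℝ) else 0) := by split_ifs <;> simp
      by_cases h3 : Far4 g i j k l
      · have := ED1' hS hd hdb hC hg hρ N i j k l hN h3 hs
        linarith
      · have h4 : ¬ FarI g i j ∨ ¬ FarI g k l ∨ ¬ FarI g (k + i) (l + j) ∨
            ¬ FarI g (k + j) (l + i) := by
          unfold Far4 at h3
          tauto
        rcases h4 with h4 | h4 | h4 | h4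
        · rw [if_pos h4]; linarith
        · rw [if_pos h4] at p2 ⊢; linarith
        · rw [if_pos h4] at p3 ⊢; linarith
        · rw [if_pos h4] at p4 ⊢; linarith
    have h5 : ∑ i ∈ range H, ∑ j ∈ range H, ∑ k ∈ range H, ∑ l ∈ range H,
        ∫ ω, Dc (fun n => d (S^[n] ω)) N i j k l ∂m ≤
        ∑ i ∈ range H, ∑ j ∈ range H, ∑ k ∈ range H, ∑ l ∈ range H,
        (A + (if ¬ FarI g i j then (N : ℝ) else 0) + ((if ¬ FarI g k l then (N : ℝ) else 0) +
        (if ¬ FarI g (k + i) (l + j) then (N : ℝ) else 0) +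
        (if ¬ FarI g (k + j) (l + i) then (N : ℝ) else 0))) :=
      Finset.sum_le_sum fun i _ => Finset.sum_le_sum fun j _ => Finset.sum_le_sum fun k _ =>
        Finset.sum_le_sum fun l _ => h2 i j k l
    refine h5.trans ?_
    have hcl : ∀ a, ∑ b ∈ range H, (if ¬ FarI g a b then (N : ℝ) else 0) ≤ 2 * g * N := by
      intro a
      rw [← Finset.sum_filter, Finset.sum_const, nsmul_eq_mul]
      have h6 : ((((range H).filter (fun b => ¬ FarI g a b)).card : ℕ) : ℝ) ≤ 2 * g := by
        exact_mod_cast close_card g a H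
      exact mul_le_mul_of_nonneg_right h6 (Nat.cast_nonneg N)
    have hcl' : ∀ a c, ∑ b ∈ range H, (if ¬ FarI g a (b + c) then (N : ℝ) else 0) ≤
        2 * g * N := by
      intro a c
      rw [← Finset.sum_filter, Finset.sum_const, nsmul_eq_mul]
      have h6 : ((((range H).filter (fun b => ¬ FarI g a (b + c))).card : ℕ) : ℝ) ≤ 2 * g := by
        exact_mod_cast close_card' g a c H
      exact mul_le_mul_of_nonneg_right h6 (Nat.cast_nonneg N)
    -- innermost sums
    have h7 : ∀ i j k, ∑ l ∈ range H,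
        (A + (if ¬ FarI g i j then (N : ℝ) else 0) + ((if ¬ FarI g k l then (N : ℝ) else 0) +
        (if ¬ FarI g (k + i) (l + j) then (N : ℝ) else 0) +
        (if ¬ FarI g (k + j) (l + i) then (N : ℝ) else 0))) ≤
        H * A + H * (if ¬ FarI g i j then (N : ℝ) else 0) + 6 * g * N := by
      intro i j k
      rw [Finset.sum_add_distrib, Finset.sum_const, card_range, nsmul_eq_mul,
        Finset.sum_add_distrib, Finset.sum_add_distrib]
      have a1 := hcl k
      have a2 := hcl' (k + i) j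
      have a3 := hcl' (k + j) i
      linarith
    have h8 : ∀ i j, ∑ k ∈ range H, ∑ l ∈ range H,
        (A + (if ¬ FarI g i j then (N : ℝ) else 0) + ((if ¬ FarI g k l then (N : ℝ) else 0) +
        (if ¬ FarI g (k + i) (l + j) then (N : ℝ) else 0) +
        (if ¬ FarI g (k + j) (l + i) then (N : ℝ) else 0))) ≤
        H * (H * A + H * (if ¬ FarI g i j then (N : ℝ) else 0) + 6 * g * N) := by
      intro i j
      refine (Finset.sum_le_sum fun k _ => h7 i j k).trans (le_of_eq ?_)
      rw [Finset.sum_const, card_range, nsmul_eq_mul]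
    have h9 : ∀ i, ∑ j ∈ range H, ∑ k ∈ range H, ∑ l ∈ range H,
        (A + (if ¬ FarI g i j then (N : ℝ) else 0) + ((if ¬ FarI g k l then (N : ℝ) else 0) +
        (if ¬ FarI g (k + i) (l + j) then (N : ℝ) else 0) +
        (if ¬ FarI g (k + j) (l + i) then (N : ℝ) else 0))) ≤
        H ^ 3 * A + H ^ 2 * (2 * g * N) + H ^ 2 * (6 * g * N) := by
      intro i
      refine (Finset.sum_le_sum fun j _ => h8 i j).trans ?_
      rw [← Finset.mul_sum, Finset.sum_add_distrib, Finset.sum_add_distrib, Finset.sum_const,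
        Finset.sum_const, card_range, ← Finset.mul_sum]
      simp only [nsmul_eq_mul]
      have h10 := mul_le_mul_of_nonneg_left (hcl i) (by positivity : (0 : ℝ) ≤ H * H)
      nlinarith
    refine (Finset.sum_le_sum fun i _ => h9 i).trans (le_of_eq ?_)
    rw [Finset.sum_const, card_range, nsmul_eq_mul]
    ring

end Pool.Agent.H85.RTM
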