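import Pool.Agent.H85.RTM.Mix

/-!
# Return times for double recurrence: logarithmic rate of eightfold mixing
-/

namespace Pool.Agent.H85.RTM

open MeasureTheory Finset Filter Topology
open Pool.Agent.H85.RT

universe u

/-- the scales -/
noncomputable def Mj (j : ℕ) : ℕ := ⌈Real.exp (Real.sqrt ((j : ℝ) + 1))⌉₊

theorem Mj_ge (j : ℕ) : Real.exp (Real.sqrt ((j : ℝ) + 1)) ≤ Mj j := Nat.le_ceil _

theorem Mj_le (j : ℕ) : (Mj j : ℝ) ≤ Real.exp (Real.sqrt ((j : ℝ) + 1)) + 1 :=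
  (Nat.ceil_lt_add_one (Real.exp_pos _).le).le

theorem Mj_two (j : ℕ) : 2 ≤ Mj j := by
  have h1 : (1 : ℝ) ≤ Real.sqrt ((j : ℝ) + 1) := by
    rw [Real.one_le_sqrt]
    have : (0 : ℝ) ≤ j := Nat.cast_nonneg j
    linarith
  have h2 : (2 : ℝ) ≤ Mj j := by
    have h3 := Real.add_one_le_exp (Real.sqrt ((j : ℝ) + 1))
    have h4 := Mj_ge j
    linarith
  exact_mod_cast h2

theorem Mj_sq (j : ℕ) : ((j : ℝ) + 1) ^ 2 ≤ 24 * Mj j := by
  have h0 : (0 : ℝ) ≤ (j : ℝ) + 1 := by positivity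
  have h1 := Real.pow_div_factorial_le_exp (Real.sqrt ((j : ℝ) + 1)) (Real.sqrt_nonneg _) 4
  have h2 : Real.sqrt ((j : ℝ) + 1) ^ 4 = ((j : ℝ) + 1) ^ 2 := by
    rw [show (4 : ℕ) = 2 * 2 from rfl, pow_mul, Real.sq_sqrt h0]
  have h3 : ((Nat.factorial 4 : ℕ) : ℝ) = 24 := by norm_num [Nat.factorial]
  rw [h2, h3] at h1
  have h4 := Mj_ge j
  rw [div_le_iff₀ (by norm_num)] at h1
  linarith

theorem Mj_log (j : ℕ) : ((j : ℝ) + 1) ^ 8 ≤ Real.log (Mj j) ^ 16 := by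
  have h0 : (0 : ℝ) ≤ (j : ℝ) + 1 := by positivity
  have h1 : Real.sqrt ((j : ℝ) + 1) ≤ Real.log (Mj j) := by
    have := Real.log_le_log (Real.exp_pos _) (Mj_ge j)
    rwa [Real.log_exp] at this
  have h2 : Real.sqrt ((j : ℝ) + 1) ^ 16 = ((j : ℝ) + 1) ^ 8 := by
    rw [show (16 : ℕ) = 2 * 8 from rfl, pow_mul, Real.sq_sqrt h0]
  rw [← h2]
  exact pow_le_pow_left₀ (Real.sqrt_nonneg _) h1 16

theorem Mj_tendsto : Tendsto Mj atTop atTop := by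
  have h1 : Tendsto (fun j : ℕ => (j : ℝ) + 1) atTop atTop :=
    tendsto_atTop_add_const_right _ _ tendsto_natCast_atTop_atTop
  have h2 : Tendsto (fun j : ℕ => Real.exp (Real.sqrt ((j : ℝ) + 1))) atTop atTop :=
    Real.tendsto_exp_atTop.comp (Real.tendsto_sqrt_atTop.comp h1)
  have h3 : Tendsto (fun j : ℕ => (Mj j : ℝ)) atTop atTop := tendsto_atTop_mono Mj_ge h2
  exact tendsto_natCast_atTop_iff.mp h3

theorem Mj_ratio (a : ℝ) (ha : 1 < a) :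
    ∀ᶠ j in atTop, ((Mj (j + 1) ^ 8 : ℕ) : ℝ) ≤ a * (Mj j ^ 8 : ℕ) := by
  have h1 : Tendsto (fun j : ℕ => (j : ℝ) + 1) atTop atTop :=
    tendsto_atTop_add_const_right _ _ tendsto_natCast_atTop_atTop
  have hs : Tendsto (fun j : ℕ => Real.sqrt ((j : ℝ) + 1)) atTop atTop :=
    Real.tendsto_sqrt_atTop.comp h1
  have h2 : Tendsto (fun j : ℕ => Real.sqrt ((j : ℝ) + 1 + 1) - Real.sqrt ((j : ℝ) + 1)) atTop
      (𝓝 0) := by
    refine squeeze_zero (fun j => ?_) (fun j => ?_) (hs.inv_tendsto_atTop)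
    · exact sub_nonneg.mpr (Real.sqrt_le_sqrt (by linarith))
    · have hp : 0 < Real.sqrt ((j : ℝ) + 1) := Real.sqrt_pos.mpr (by positivity)
      have e1 := Real.sq_sqrt (show (0 : ℝ) ≤ (j : ℝ) + 1 + 1 by positivity)
      have e2 := Real.sq_sqrt (show (0 : ℝ) ≤ (j : ℝ) + 1 by positivity)
      have hq := Real.sqrt_nonneg ((j : ℝ) + 1 + 1)
      rw [Pi.inv_apply, inv_eq_one_div, le_div_iff₀ hp]
      nlinarith [Real.sqrt_le_sqrt (show (j : ℝ) + 1 ≤ (j : ℝ) + 1 + 1 by linarith)]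
  have h3 : Tendsto (fun j : ℕ => Real.exp (-Real.sqrt ((j : ℝ) + 1))) atTop (𝓝 0) :=
    Real.tendsto_exp_neg_atTop_nhds_zero.comp hs
  have h4 : Tendsto (fun j : ℕ => (Real.exp (Real.sqrt ((j : ℝ) + 1 + 1) -
      Real.sqrt ((j : ℝ) + 1)) + Real.exp (-Real.sqrt ((j : ℝ) + 1))) ^ 8) atTop (𝓝 1) := by
    have h5 := (((Real.continuous_exp.tendsto 0).comp h2).add h3).pow 8
    rw [Real.exp_zero, add_zero, one_pow] at h5
    exact h5
  filter_upwards [h4.eventually (gt_mem_nhds ha)] with j hj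
  have e0 : (Mj (j + 1) : ℝ) ≤ (Real.exp (Real.sqrt ((j : ℝ) + 1 + 1) -
      Real.sqrt ((j : ℝ) + 1)) + Real.exp (-Real.sqrt ((j : ℝ) + 1))) * Mj j := by
    have e1 := Mj_le (j + 1)
    push_cast at e1
    have e2 : (Real.exp (Real.sqrt ((j : ℝ) + 1 + 1) -
      Real.sqrt ((j : ℝ) + 1)) + Real.exp (-Real.sqrt ((j : ℝ) + 1))) *
      Real.exp (Real.sqrt ((j : ℝ) + 1)) = Real.exp (Real.sqrt ((j : ℝ) + 1 + 1)) + 1 := by
      rw [add_mul, ← Real.exp_add, ← Real.exp_add, sub_add_cancel, neg_add_cancel, Real.exp_zero]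
    have e3 := mul_le_mul_of_nonneg_left (Mj_ge j) (by positivity :
      0 ≤ Real.exp (Real.sqrt ((j : ℝ) + 1 + 1) -
      Real.sqrt ((j : ℝ) + 1)) + Real.exp (-Real.sqrt ((j : ℝ) + 1)))
    rw [e2] at e3
    exact e1.trans e3
  push_cast
  calc (Mj (j + 1) : ℝ) ^ 8 ≤ ((Real.exp (Real.sqrt ((j : ℝ) + 1 + 1) -
      Real.sqrt ((j : ℝ) + 1)) + Real.exp (-Real.sqrt ((j : ℝ) + 1))) * Mj j) ^ 8 :=
        pow_le_pow_left₀ (Nat.cast_nonneg _) e0 8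
    _ ≤ a * (Mj j : ℝ) ^ 8 := by
        rw [mul_pow]
        exact mul_le_mul_of_nonneg_right hj.le (by positivity)

variable {Ω : Type*} [MeasurableSpace Ω] {m : Measure Ω} [IsProbabilityMeasure m] {S : Ω → Ω}
  {d : Ω → ℝ}

/-- weights with eightfold mixing at a logarithmic rate are almost surely universally good -/
theorem null_of_mix (hS : Measurable S) (hd : Measurable d) (hdb : ∀ ω, |d ω| ≤ 1) {C : ℝ}
    (hC0 : 0 ≤ C) (hC : MixB S m d (fun g => C / Real.log g ^ 16)) :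
    ∀ᵐ ω ∂m, NullR.{u} (fun n => d (S^[n] ω)) := by
  have hM0 : ∀ j, 0 < Mj j := fun j => lt_of_lt_of_le two_pos (Mj_two j)
  have hbig : ∀ j : ℕ, Integrable (fun ω => Rg (fun n => d (S^[n] ω)) (Mj j ^ 8) (Mj j ^ 4)
      (((j : ℝ) + 1) ^ 2)) m ∧ ∫ ω, Rg (fun n => d (S^[n] ω)) (Mj j ^ 8) (Mj j ^ 4)
      (((j : ℝ) + 1) ^ 2) ∂m ≤ (C + 10635266) * (1 / ((j : ℝ) + 1) ^ 2) := by
    intro j
    have hlog : 0 ≤ C / Real.log (Mj j) ^ 16 := by positivity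
    have hQ := EQ1' hS hd hdb hC (Mj_two j) hlog (Mj j ^ 8) (Mj j ^ 4) (pow_pos (hM0 j) 8)
      (s := ((j : ℝ) + 1) ^ 4) (by positivity)
    have hi : Integrable (fun ω => Rg (fun n => d (S^[n] ω)) (Mj j ^ 8) (Mj j ^ 4)
      (((j : ℝ) + 1) ^ 2)) m := (hQ.1.const_mul _).add (integrable_const _)
    refine ⟨hi, ?_⟩
    have e1 : ∫ ω, Rg (fun n => d (S^[n] ω)) (Mj j ^ 8) (Mj j ^ 4) (((j : ℝ) + 1) ^ 2) ∂m =
        2 * ((j : ℝ) + 1) ^ 2 / (((Mj j ^ 8 : ℕ) : ℝ) * ((Mj j ^ 4 : ℕ) : ℝ) ^ 4) *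
        (∫ ω, Qc (fun n => d (S^[n] ω)) (Mj j ^ 8) (Mj j ^ 4) ∂m) +
        (1 / ((j : ℝ) + 1) ^ 2 + 8 * ((Mj j ^ 4 : ℕ) : ℝ) ^ 2 * (((j : ℝ) + 1) ^ 2 + 1) /
          ((Mj j ^ 8 : ℕ) : ℝ) ^ 2) := by
      unfold Rg
      rw [integral_add (hQ.1.const_mul _) (integrable_const _), integral_const_mul]
      simp
    rw [e1]
    have h2 := hQ.2
    have hMs := Mj_sq j
    have hMl := Mj_log j
    have hM1 : (1 : ℝ) ≤ Mj j := by exact_mod_cast hM0 j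
    push_cast at h2 ⊢
    set y : ℝ := (j : ℝ) + 1 with hy
    set M : ℝ := (Mj j : ℝ) with hM
    set ρ : ℝ := C / Real.log M ^ 16 with hρ
    have hy1 : 1 ≤ y := by rw [hy]; linarith [(Nat.cast_nonneg j : (0 : ℝ) ≤ j)]
    have hy0 : 0 < y := by linarith
    have hMp : 0 < M := by linarith
    have h3 := mul_le_mul_of_nonneg_left h2 (by positivity : 0 ≤ 2 * y ^ 2 / (M ^ 8 * (M ^ 4) ^ 4))
    refine (add_le_add h3 le_rfl).trans ?_
    have e2 : 2 * y ^ 2 / (M ^ 8 * (M ^ 4) ^ 4) *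
        ((M ^ 4) ^ 4 * (y ^ 4 * M ^ 8 * ρ / 2 + 16 * y ^ 4 * M + M ^ 8 / (2 * y ^ 4)) +
          8 * M * (M ^ 4) ^ 3 * M ^ 8) + (1 / y ^ 2 + 8 * (M ^ 4) ^ 2 * (y ^ 2 + 1) / (M ^ 8) ^ 2) =
        y ^ 6 * ρ + 32 * (y ^ 6 / M ^ 7) + 2 * (1 / y ^ 2) + 16 * (y ^ 2 / M ^ 3) +
          8 * ((y ^ 2 + 1) / M ^ 8) := by
      field_simp
      ring
    rw [e2]
    have b1 : y ^ 6 * ρ ≤ C * (1 / y ^ 2) := by
      have hl0 : 0 < Real.log M ^ 16 := lt_of_lt_of_le (by positivity) hMl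
      rw [hρ, ← mul_div_assoc, div_le_iff₀ hl0]
      have : C * (1 / y ^ 2) * y ^ 8 ≤ C * (1 / y ^ 2) * Real.log M ^ 16 :=
        mul_le_mul_of_nonneg_left hMl (by positivity)
      refine le_trans (le_of_eq ?_) this
      field_simp
    have b2 : y ^ 6 / M ^ 7 ≤ 331776 * (1 / y ^ 2) := by
      rw [div_le_iff₀ (by positivity), mul_one_div, div_mul_eq_mul_div, le_div_iff₀ (by positivity)]
      have h4 : (y ^ 2) ^ 4 ≤ (24 * M) ^ 4 := pow_le_pow_left₀ (by positivity) hMs 4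
      have h5 : M ^ 4 ≤ M ^ 7 := pow_le_pow_right₀ hM1 (by norm_num)
      nlinarith
    have b3 : y ^ 2 / M ^ 3 ≤ 576 * (1 / y ^ 2) := by
      rw [div_le_iff₀ (by positivity), mul_one_div, div_mul_eq_mul_div, le_div_iff₀ (by positivity)]
      have h4 : (y ^ 2) ^ 2 ≤ (24 * M) ^ 2 := pow_le_pow_left₀ (by positivity) hMs 2
      have h5 : M ^ 2 ≤ M ^ 3 := pow_le_pow_right₀ hM1 (by norm_num)
      nlinarith
    have b4 : (y ^ 2 + 1) / M ^ 8 ≤ 1152 * (1 / y ^ 2) := by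
      rw [div_le_iff₀ (by positivity), mul_one_div, div_mul_eq_mul_div, le_div_iff₀ (by positivity)]
      have h4 : (y ^ 2) ^ 2 ≤ (24 * M) ^ 2 := pow_le_pow_left₀ (by positivity) hMs 2
      have h5 : M ^ 2 ≤ M ^ 8 := pow_le_pow_right₀ hM1 (by norm_num)
      have h6 : y ^ 2 ≤ (y ^ 2) ^ 2 := by
        have : 1 ≤ y ^ 2 := one_le_pow₀ hy1
        nlinarith
      nlinarith
    nlinarith
  have h1 := ae_summable (μ := m) (r := fun j ω => Rg (fun n => d (S^[n] ω)) (Mj j ^ 8)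
      (Mj j ^ 4) (((j : ℝ) + 1) ^ 2))
    (c := fun j : ℕ => (C + 10635266) * (1 / ((j : ℝ) + 1) ^ 2))
    (fun j ω => Rg_nonneg _ _ _ (by positivity)) (fun j => (hbig j).1) ?_ (fun j => (hbig j).2)
  · filter_upwards [h1] with ω hω
    refine nullR_of_summable' (fun n => hdb _) (c := fun j => Mj j ^ 8) (H := fun j => Mj j ^ 4)
      (t := fun j => ((j : ℝ) + 1) ^ 2) (fun j => pow_pos (hM0 j) 8) (fun j => pow_pos (hM0 j) 4)
      (fun j => by positivity) ?_ Mj_ratio hω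
    exact tendsto_atTop_mono (fun j => Nat.le_self_pow (by norm_num) (Mj j)) Mj_tendsto
  · refine Summable.mul_left _ ?_
    have := (summable_nat_add_iff 1).mpr (Real.summable_one_div_nat_pow.mpr (by norm_num : 1 < 2))
    simpa using this

end Pool.Agent.H85.RTM
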