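import Pool.Agent.H85.RT.Rand

/-!
# Return times for double recurrence: criterion along a general subsequence
-/

namespace Pool.Agent.H85.RTM

open MeasureTheory Finset Filter Topology
open Pool.Agent.H85.RT

universe u

/-- convergence along a subsequence without gaps is enough -/
theorem interp' {u : ℕ → ℝ} (hu : ∀ n, |u n| ≤ 1) {c : ℕ → ℕ} (hc0 : ∀ j, 0 < c j)
    (hc : Tendsto c atTop atTop)
    (hr : ∀ a : ℝ, 1 < a → ∀ᶠ j in atTop, (c (j + 1) : ℝ) ≤ a * c j)
    (h : Tendsto (fun j : ℕ => (∑ n ∈ range (c j), u n) / (c j : ℕ)) atTop (𝓝 0)) :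
    Tendsto (fun N : ℕ => (∑ n ∈ range N, u n) / N) atTop (𝓝 0) := by
  have hmono : Monotone (fun N : ℕ => ∑ n ∈ range N, (u n + 1)) := by
    intro a b hab
    refine Finset.sum_le_sum_of_subset_of_nonneg (Finset.range_mono hab) fun n _ _ => ?_
    have := (abs_le.mp (hu n)).1
    linarith
  have key := tendsto_div_of_monotone_of_exists_subseq_tendsto_div
    (fun N : ℕ => ∑ n ∈ range N, (u n + 1)) 1 hmono ?_
  · have h2 : Tendsto (fun N : ℕ => (∑ n ∈ range N, (u n + 1)) / N - 1) atTop (𝓝 0) := by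
      simpa using key.sub_const 1
    refine h2.congr' ?_
    filter_upwards [eventually_gt_atTop 0] with N hN
    have hN' : (N : ℝ) ≠ 0 := by positivity
    rw [Finset.sum_add_distrib]
    simp
    field_simp
    ring
  · intro a ha
    refine ⟨c, hr a ha, hc, ?_⟩
    have h6 := h.add_const 1
    rw [zero_add] at h6
    refine h6.congr fun n => ?_
    rw [Finset.sum_add_distrib]
    have : ((c n : ℕ) : ℝ) ≠ 0 := by
      have := hc0 n
      positivity
    simp only [Finset.sum_const, card_range, nsmul_eq_mul, mul_one]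
    rw [add_div, div_self this]

/-- the error function -/
noncomputable def Rg (w : ℕ → ℝ) (N H : ℕ) (t : ℝ) : ℝ :=
  2 * t / (N * (H : ℝ) ^ 4) * Qc w N H + (1 / t + 8 * (H : ℝ) ^ 2 * (t + 1) / (N : ℝ) ^ 2)

theorem Rg_nonneg (w : ℕ → ℝ) (N H : ℕ) {t : ℝ} (ht : 0 < t) : 0 ≤ Rg w N H t := by
  unfold Rg
  have := Qc_nonneg w N H
  positivity

theorem nullR_of_summable' {w : ℕ → ℝ} (hw : ∀ n, |w n| ≤ 1) {c H : ℕ → ℕ} {t : ℕ → ℝ}
    (hc0 : ∀ j, 0 < c j) (hH0 : ∀ j, 0 < H j) (ht0 : ∀ j, 0 < t j)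
    (hc : Tendsto c atTop atTop)
    (hr : ∀ a : ℝ, 1 < a → ∀ᶠ j in atTop, (c (j + 1) : ℝ) ≤ a * c j)
    (hs : Summable (fun j => Rg w (c j) (H j) (t j))) : NullR.{u} w := by
  intro X _ μ _ T hT f g hf hg hfb hgb
  have hit : ∀ n, MeasurePreserving (T^[n]) μ μ := fun n => hT.iterate n
  have hits : ∀ n, MeasurePreserving (T.symm^[n]) μ μ := fun n => (hT.symm T).iterate n
  have hm : ∀ n, Measurable (fun x => w n * (f (T^[n] x) * g (T.symm^[n] x))) := fun n =>
    ((hf.comp (hit n).measurable).mul (hg.comp (hits n).measurable)).const_mul _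
  have hb : ∀ n x, |w n * (f (T^[n] x) * g (T.symm^[n] x))| ≤ 1 := by
    intro n x
    rw [abs_mul, abs_mul]
    exact mul_le_one₀ (hw n) (by positivity) (mul_le_one₀ (hfb _) (abs_nonneg _) (hgb _))
  have hae := ae_summable (μ := μ) (r := fun j x => ((∑ n ∈ range (c j),
      w n * (f (T^[n] x) * g (T.symm^[n] x))) / (c j : ℕ)) ^ 2)
    (c := fun j => Rg w (c j) (H j) (t j))
    (fun j x => sq_nonneg _) (fun j => ?_) hs (fun j => ?_)
  · filter_upwards [hae] with x hx
    have h1 := hx.tendsto_atTop_zero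
    have h2 : Tendsto (fun j : ℕ => |(∑ n ∈ range (c j),
        w n * (f (T^[n] x) * g (T.symm^[n] x))) / (c j : ℕ)|) atTop (𝓝 0) := by
      have := h1.sqrt
      rw [Real.sqrt_zero] at this
      refine this.congr fun j => ?_
      exact Real.sqrt_sq_eq_abs _
    exact interp' (fun n => hb n x) hc0 hc hr (tendsto_zero_iff_abs_tendsto_zero _ |>.mpr h2)
  · refine int_of_bdd (((Finset.measurable_sum _ fun n _ => hm n).div_const _).pow_const 2)
      (C := 1) fun x => ?_
    rw [abs_pow, sq_le_one_iff_abs_le_one, abs_abs, abs_div, Nat.abs_cast]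
    refine div_le_one_of_le₀ ?_ (Nat.cast_nonneg _)
    refine (Finset.abs_sum_le_sum_abs _ _).trans ?_
    refine (Finset.sum_le_sum fun n _ => hb n x).trans ?_
    simp
  · have h3 := double hT hf hg hfb hgb w hw (c j) (H j) (hc0 j) (hH0 j) (ht0 j)
    have hN' : (0 : ℝ) < (c j : ℕ) := by exact_mod_cast hc0 j
    have hH' : (0 : ℝ) < (H j : ℕ) := by exact_mod_cast hH0 j
    have ht' := ht0 j
    have e : ∀ x, ((∑ n ∈ range (c j),
        w n * (f (T^[n] x) * g (T.symm^[n] x))) / (c j : ℕ)) ^ 2 =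
        (1 / ((c j : ℕ) : ℝ) ^ 2) * (∑ n ∈ range (c j),
        w n * (f (T^[n] x) * g (T.symm^[n] x))) ^ 2 := by
      intro x
      rw [div_pow]
      ring
    simp_rw [e]
    rw [integral_const_mul]
    have hpos : (0 : ℝ) < 1 / ((c j : ℕ) : ℝ) ^ 2 := by positivity
    refine (mul_le_mul_of_nonneg_left h3 hpos.le).trans (le_of_eq ?_)
    unfold Rg
    field_simp
    ring

end Pool.Agent.H85.RTM
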